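import Pool.Agent.N119.PS.Fin4

/-!
# The equality case of the Patterson-Sullivan intersection function on Outer space

For `N ≥ 2`, all `S, T` in Outer space `cv_N` and all Patterson-Sullivan currents `μ_S`, `μ_T`
with `⟨S, μ_S⟩ = ⟨T, μ_T⟩ = 1`, the product `⟨S, μ_T⟩ ⟨T, μ_S⟩` equals `1` if and only if `S` and
`T` are homothetic; for trees of volume one, if and only if they are equivariantly isometric.
-/

set_option autoImplicit false

namespace Pool.Agent.Results.MP_79396e_al.EqualityCase

open Pool.Agent.H472R3 Pool.Agent.H67R3.FSR Pool.Agent.H67R4.SR Pool.Agent.N119.PS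

theorem result (N : ℕ) (hN : 2 ≤ N) :
    (∃ I : FTree N → Current N → ℝ, IsIntersectionForm I) ∧
    ∀ I : FTree N → Current N → ℝ, IsIntersectionForm I →
      (∀ T : FTree N, T.InCV → ∃ μ : Current N, IsPSCurrent T μ ∧ I T μ = 1) ∧
      ∀ S T : FTree N, S.InCV → T.InCV → ∀ μS μT : Current N, IsPSCurrent S μS →
        IsPSCurrent T μT → I S μS = 1 → I T μT = 1 →
        (I S μT * I T μS = 1 ↔ Homothetic S T) ∧
        (vol S = 1 → vol T = 1 → (I S μT * I T μS = 1 ↔ S.Same T)) :=
  thm2 l_den l_cur l_nrm (l_ifm l_pow) l_scl N hN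

end Pool.Agent.Results.MP_79396e_al.EqualityCase
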